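import Pool.Agent.N236.RT.Stm

/-! Project RT, part TL (helper92): the translation lemma -/

set_option autoImplicit false

namespace Pool.Agent.N92.RT

open MvPolynomial Module Pool.Agent.N236.RT

theorem tr_C (ζ : Fin 2 → Qb) (a : Qb) : tr ζ (C a) = C a := by
  unfold tr
  rw [← MvPolynomial.algebraMap_eq, AlgHom.commutes]

theorem tr_X (ζ : Fin 2 → Qb) (i : Fin 2) : tr ζ (X i) = C (ζ i) * X i := by
  unfold tr
  rw [aeval_X]

/-- translation as an algebra homomorphism -/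
noncomputable def trh (ζ : Fin 2 → Qb) : Pol Qb →ₐ[Qb] Pol Qb := aeval (fun i => C (ζ i) * X i)

theorem trh_apply (ζ : Fin 2 → Qb) (P : Pol Qb) : trh ζ P = tr ζ P := rfl

theorem tr_tr (ζ ξ : Fin 2 → Qb) (P : Pol Qb) : tr ζ (tr ξ P) = tr (ζ * ξ) P := by
  have h : (trh ζ).comp (trh ξ) = trh (ζ * ξ) := by
    apply MvPolynomial.algHom_ext
    intro i
    simp only [trh, AlgHom.comp_apply, aeval_X, map_mul, Pi.mul_apply]
    rw [← MvPolynomial.algebraMap_eq, AlgHom.commutes]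
    ring
  exact congrArg (fun g => g P) h

theorem tr_one (P : Pol Qb) : tr 1 P = P := by
  have h : trh 1 = AlgHom.id Qb (Pol Qb) := by
    apply MvPolynomial.algHom_ext
    intro i
    simp [trh]
  exact congrArg (fun g => g P) h

/-- translation as an automorphism -/
noncomputable def tre (ζ : Fin 2 → Qb) (hζ : ∀ i, ζ i ≠ 0) : Pol Qb ≃+* Pol Qb where
  toFun := tr ζ
  invFun := tr ζ⁻¹
  left_inv P := by
    rw [tr_tr]
    have : ζ⁻¹ * ζ = 1 := by
      funext i; simp [hζ i]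
    rw [this, tr_one]
  right_inv P := by
    rw [tr_tr]
    have : ζ * ζ⁻¹ = 1 := by
      funext i; simp [hζ i]
    rw [this, tr_one]
  map_mul' P Q := map_mul (trh ζ) P Q
  map_add' P Q := map_add (trh ζ) P Q

theorem tre_apply (ζ : Fin 2 → Qb) (hζ : ∀ i, ζ i ≠ 0) (P : Pol Qb) : tre ζ hζ P = tr ζ P := rfl

theorem gal_tr (τ : Qb ≃ₐ[ℚ] Qb) (ζ : Fin 2 → Qb) (P : Pol Qb) :
    gal τ (tr ζ P) = tr (fun i => τ (ζ i)) (gal τ P) := by
  have h : (MvPolynomial.map (τ : Qb →+* Qb)).comp (trh ζ : Pol Qb →+* Pol Qb) =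
      ((trh (fun i => τ (ζ i)) : Pol Qb →ₐ[Qb] Pol Qb) : Pol Qb →+* Pol Qb).comp
        (MvPolynomial.map (τ : Qb →+* Qb)) := by
    apply MvPolynomial.ringHom_ext
    · intro a
      simp only [RingHom.comp_apply, AlgHom.coe_toRingHom, trh_apply, tr_C, map_C]
    · intro i
      simp only [RingHom.comp_apply, AlgHom.coe_toRingHom, trh_apply, tr_X, map_mul, map_C, map_X]
      rfl
  exact congrArg (fun g => g P) h

theorem gal_up (τ : Qb ≃ₐ[ℚ] Qb) (F : Pol ℚ) : gal τ (up F) = up F := by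
  unfold gal up
  rw [map_map]
  congr 1
  congr 1
  ext
  simp

/-- the Galois action as an automorphism -/
noncomputable def gale (τ : Qb ≃ₐ[ℚ] Qb) : Pol Qb ≃+* Pol Qb :=
  MvPolynomial.mapEquiv (Fin 2) (τ : Qb ≃+* Qb)

theorem gale_apply (τ : Qb ≃ₐ[ℚ] Qb) (P : Pol Qb) : gale τ P = gal τ P := rfl

theorem root_ne {i : ℕ} (hi : i ≠ 0) {ζ : Fin 2 → Qb} (hζ : ζ ^ i = 1) (j : Fin 2) : ζ j ≠ 0 := by
  intro h
  have h1 := congrFun hζ j
  rw [Pi.pow_apply, h, zero_pow hi, Pi.one_apply] at h1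
  exact zero_ne_one h1

theorem up_ne {F : Pol ℚ} (h : F ≠ 0) : up F ≠ 0 := by
  unfold up
  intro h0
  apply h
  apply map_injective _ (algebraMap ℚ Qb).injective
  rw [h0, map_zero]

theorem up_unit {F : Pol ℚ} (h : IsUnit (up F)) : IsUnit F := by
  rw [isUnit_iff_totalDegree_of_isReduced] at h ⊢
  obtain ⟨h1, h2⟩ := h
  have h3 : totalDegree (up F) = totalDegree F := by
    unfold up totalDegree
    rw [support_map_of_injective _ (algebraMap ℚ Qb).injective]
  refine ⟨?_, h3 ▸ h2⟩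
  unfold up at h1
  rw [coeff_map] at h1
  rw [isUnit_iff_ne_zero] at h1 ⊢
  intro h0
  apply h1
  rw [h0, map_zero]

theorem bd_self (F : Pol ℚ) : Bd (F.degreeOf 0) (F.degreeOf 1) F := fun _ hm =>
  ⟨monomial_le_degreeOf 0 hm, monomial_le_degreeOf 1 hm⟩

theorem bd_factor {F : Pol ℚ} (hF : F ≠ 0) {f : Pol Qb} (h : f ∣ up F) :
    Bd (F.degreeOf 0) (F.degreeOf 1) f := by
  obtain ⟨g, hg⟩ := h
  have hup := up_ne hF
  have hf0 : f ≠ 0 := by rintro rfl; rw [zero_mul] at hg; exact hup hg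
  have hg0 : g ≠ 0 := by rintro rfl; rw [mul_zero] at hg; exact hup hg
  have key : ∀ j, f.degreeOf j ≤ F.degreeOf j := by
    intro j
    have h1 : (up F).degreeOf j ≤ F.degreeOf j := by
      rw [degreeOf_le_iff]
      intro m hm
      apply monomial_le_degreeOf
      unfold up at hm
      exact support_map_subset _ _ hm
    rw [hg, degreeOf_mul_eq hf0 hg0] at h1
    omega
  intro m hm
  exact ⟨(monomial_le_degreeOf 0 hm).trans (key 0), (monomial_le_degreeOf 1 hm).trans (key 1)⟩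

theorem t_tl : S_GAL → S_COLF → S_TLA → S_TLB → S_TLP → S_TL := by
  classical
  intro hGAL hCOLF hTLA hTLB hTLP F P I A B hF hCol hI hP hPb hFP
  by_contra hcon
  push Not at hcon
  have hF0 : F ≠ 0 := hF.ne_zero
  have hup := up_ne hF0
  have hupu : ¬ IsUnit (up F) := fun h => hF.not_isUnit (up_unit h)
  obtain ⟨f, hf, hfF⟩ := WfDvdMonoid.exists_irreducible_factor hupu hup
  -- every prime in I gives a translate of f which is a conjugate
  have key : ∀ i ∈ I, ∃ η : Fin 2 → Qb, η ^ i = 1 ∧ η ≠ 1 ∧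
      ∃ ρ : Qb ≃ₐ[ℚ] Qb, Associated (tr η f) (gal ρ f) := by
    intro i hi
    obtain ⟨hip, hiF⟩ := hFP i hi
    have h1 : ¬ ∀ ζ ξ : Fin 2 → Qb, ζ ^ i = 1 → ξ ^ i = 1 → ζ ≠ ξ →
        IsRelPrime (tr ζ (up F)) (tr ξ (up F)) := by
      intro hall
      obtain ⟨h2, h3⟩ := hTLP F P i A B hip hF0 hP hPb hiF hall
      exact absurd h3 (not_le.mpr (hcon i hi h2))
    push Not at h1
    obtain ⟨ζ, ξ, hζ, hξ, hne, hrel⟩ := h1
    have hζ0 := root_ne hip.ne_zero hζ
    have hξ0 := root_ne hip.ne_zero hξ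
    have hrel' : ∃ d, d ∣ tr ζ (up F) ∧ d ∣ tr ξ (up F) ∧ ¬ IsUnit d := by
      by_contra hno
      push Not at hno
      exact hrel (fun d h1 h2 => hno d h1 h2)
    obtain ⟨d, hd1, hd2, hdu⟩ := hrel'
    have hd0 : d ≠ 0 := by
      rintro rfl
      rw [zero_dvd_iff, ← tre_apply ζ hζ0, map_eq_zero_iff _ (tre ζ hζ0).injective] at hd1
      exact hup hd1
    obtain ⟨h, hh, hhd⟩ := WfDvdMonoid.exists_irreducible_factor hdu hd0
    have hh1 := hhd.trans hd1
    have hh2 := hhd.trans hd2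
    have hζ0' : ∀ i, ζ⁻¹ i ≠ 0 := fun i => by rw [Pi.inv_apply]; exact inv_ne_zero (hζ0 i)
    have hξ0' : ∀ i, ξ⁻¹ i ≠ 0 := fun i => by rw [Pi.inv_apply]; exact inv_ne_zero (hξ0 i)
    have hinvζ : ζ⁻¹ * ζ = 1 := by funext i; simp [hζ0 i]
    have hinvζ' : ζ * ζ⁻¹ = 1 := by funext i; simp [hζ0 i]
    have hinvξ : ξ⁻¹ * ξ = 1 := by funext i; simp [hξ0 i]
    set f1 : Pol Qb := tr ζ⁻¹ h with hf1
    have hf1F : f1 ∣ up F := by
      have h2 := map_dvd (tre ζ⁻¹ hζ0') hh1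
      rw [tre_apply, tre_apply, tr_tr, hinvζ, tr_one] at h2
      exact h2
    have hf1i : Irreducible f1 := by
      have h2 := (MulEquiv.irreducible_iff (tre ζ⁻¹ hζ0')).mpr hh
      exact h2
    set η : Fin 2 → Qb := ξ⁻¹ * ζ with hη
    have hη0 : ∀ i, η i ≠ 0 := fun i => by
      rw [hη, Pi.mul_apply]; exact mul_ne_zero (hξ0' i) (hζ0 i)
    have hη1 : η ≠ 1 := by
      intro h1
      apply hne
      have h2 : ξ * η = ξ := by rw [h1, mul_one]
      rw [hη, ← mul_assoc] at h2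
      have h3 : ξ * ξ⁻¹ = 1 := by funext i; simp [hξ0 i]
      rw [h3, one_mul] at h2
      exact h2
    have hηi : η ^ i = 1 := by
      rw [hη, mul_pow, inv_pow, hζ, hξ]
      simp
    have hηF : tr η f1 ∣ up F := by
      have h2 := map_dvd (tre ξ⁻¹ hξ0') hh2
      rw [tre_apply, tre_apply, tr_tr, hinvξ, tr_one] at h2
      have h3 : tr η f1 = tr ξ⁻¹ h := by
        rw [hf1, tr_tr, hη, mul_assoc, hinvζ', mul_one]
      rw [h3]; exact h2
    -- move to f
    obtain ⟨τ, hτ⟩ := hGAL F f1 f hF hf1i hf hf1F hfF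
    set η' : Fin 2 → Qb := fun i => τ (η i) with hη'
    have hη0' : ∀ i, η' i ≠ 0 := fun i => by
      simp only [hη']
      exact (map_ne_zero_iff τ τ.injective).mpr (hη0 i)
    have hass : Associated (gal τ (tr η f1)) (tr η' f) := by
      rw [gal_tr]
      exact hτ.map (tre η' hη0')
    have h5 : tr η' f ∣ up F := by
      have h6 := map_dvd (gale τ) hηF
      rw [gale_apply, gale_apply, gal_up] at h6
      exact hass.symm.dvd.trans h6
    have h6 : Irreducible (tr η' f) := (MulEquiv.irreducible_iff (tre η' hη0')).mpr hf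
    obtain ⟨ρ, hρ⟩ := hGAL F f (tr η' f) hF hf h6 hfF h5
    refine ⟨η', ?_, ?_, ρ, hρ.symm⟩
    · funext j
      have h7 := congrFun hηi j
      rw [Pi.pow_apply, Pi.one_apply] at h7
      rw [Pi.pow_apply, Pi.one_apply, hη']
      simp only
      rw [← map_pow, h7, map_one]
    · intro h7
      apply hη1
      funext j
      have h8 := congrFun h7 j
      simp only [hη', Pi.one_apply] at h8
      rw [Pi.one_apply]
      exact τ.injective (by rw [h8, map_one])
  set IA : Finset ℕ := I.filter (fun i => ∃ ζ : Fin 2 → Qb, ζ ^ i = 1 ∧ ζ ≠ 1 ∧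
    Associated (tr ζ f) f) with hIA
  set IB : Finset ℕ := I.filter (fun i => ¬ ∃ ζ : Fin 2 → Qb, ζ ^ i = 1 ∧ ζ ≠ 1 ∧
    Associated (tr ζ f) f) with hIB
  have hcard : IA.card + IB.card = I.card := Finset.card_filter_add_card_filter_not _
  have hA : 2 ^ IA.card ≤ 2 * F.degreeOf 0 * F.degreeOf 1 := by
    rcases hTLA f (F.degreeOf 0) (F.degreeOf 1) IA hf.ne_zero (bd_factor hF0 hfF) (by
      intro i hi
      rw [hIA, Finset.mem_filter] at hi
      exact ⟨(hFP i hi.1).1, hi.2⟩) with h | h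
    · exact absurd (hCOLF F f hF hf hfF h) hCol
    · exact h
  have hB : 2 ^ IB.card ≤ F.degreeOf 0 + F.degreeOf 1 := by
    apply hTLB F f (F.degreeOf 0) (F.degreeOf 1) IB hF0 (bd_self F) hf hfF
    intro i hi
    rw [hIB, Finset.mem_filter] at hi
    refine ⟨(hFP i hi.1).1, ?_, ?_⟩
    · obtain ⟨η, h1, h2, ρ, h3⟩ := key i hi.1
      exact ⟨η, h1, h2, ρ, h3⟩
    · intro ζ hζ hass
      by_contra hne
      exact hi.2 ⟨ζ, hζ, hne, hass⟩
  have hfin : 2 ^ I.card ≤ 2 * F.degreeOf 0 * F.degreeOf 1 * (F.degreeOf 0 + F.degreeOf 1) := by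
    rw [← hcard, pow_add]
    exact Nat.mul_le_mul hA hB
  omega

end Pool.Agent.N92.RT
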