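import Pool.Agent.N236.RT.Stm

/-! Project RT, part BAD (helper92): few primes are bad; different powers are not conjugate -/

set_option autoImplicit false

namespace Pool.Agent.N92.RT

open Module Pool.Agent.N236.RT IntermediateField

section

variable {K : Type} [Field K] [NumberField K]

theorem gen_of_mem {x y u v : K} (hc : Gen x y) (hx : x ∈ adjoin ℚ ({u, v} : Set K))
    (hy : y ∈ adjoin ℚ ({u, v} : Set K)) : Gen u v := by
  intro σ τ hστ
  have hu : σ u = τ u := congrArg Prod.fst hστ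
  have hv : σ v = τ v := congrArg Prod.snd hστ
  have h1 : σ.comp (adjoin ℚ ({u, v} : Set K)).val = τ.comp (adjoin ℚ ({u, v} : Set K)).val := by
    apply adjoin_algHom_ext ℚ (s := {u, v})
    intro z hz
    rcases hz with rfl | hz
    · exact hu
    · rw [Set.mem_singleton_iff] at hz
      subst hz
      exact hv
  have h2 := DFunLike.congr_fun h1 ⟨x, hx⟩
  have h3 := DFunLike.congr_fun h1 ⟨y, hy⟩
  exact hc (Prod.ext h2 h3)

theorem mem_of_coprime {α : K} (h0 : α ≠ 0) (F : IntermediateField ℚ K) {m n : ℕ}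
    (hmn : Nat.Coprime m n) (hm : α ^ m ∈ F) (hn : α ^ n ∈ F) : α ∈ F := by
  have h1 := Nat.gcd_eq_gcd_ab m n
  rw [hmn] at h1
  have h2 : α = (α ^ m) ^ (Nat.gcdA m n) * (α ^ n) ^ (Nat.gcdB m n) := by
    rw [← zpow_natCast α m, ← zpow_natCast α n, ← zpow_mul, ← zpow_mul, ← zpow_add₀ h0, ← h1]
    simp
  rw [h2]
  exact mul_mem (zpow_mem hm _) (zpow_mem hn _)

theorem two_mul_finrank_le {E F : IntermediateField ℚ K} (h : E < F) :
    2 * finrank ℚ E ≤ finrank ℚ F := by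
  obtain ⟨k, hk⟩ := IntermediateField.finrank_dvd_of_le_right h.le
  have hpos : 0 < finrank ℚ F := finrank_pos
  have hpos' : 0 < finrank ℚ E := finrank_pos
  have h1 : k ≠ 0 := by rintro rfl; omega
  have h2 : k ≠ 1 := by
    rintro rfl
    exact h.ne (IntermediateField.eq_of_le_of_finrank_eq h.le (by omega))
  have : 2 ≤ k := by omega
  nlinarith

theorem adj_le {x y u v : K} (hx : x ∈ adjoin ℚ ({u, v} : Set K))
    (hy : y ∈ adjoin ℚ ({u, v} : Set K)) :
    adjoin ℚ ({x, y} : Set K) ≤ adjoin ℚ ({u, v} : Set K) := by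
  rw [adjoin_le_iff]
  intro z hz
  rcases hz with rfl | hz
  · exact hx
  · rw [Set.mem_singleton_iff] at hz
    subst hz
    exact hy

theorem mem1 (u v : K) : u ∈ adjoin ℚ ({u, v} : Set K) :=
  subset_adjoin ℚ _ (Set.mem_insert _ _)

theorem mem2 (u v : K) : v ∈ adjoin ℚ ({u, v} : Set K) :=
  subset_adjoin ℚ _ (Set.mem_insert_of_mem _ rfl)

theorem two_pow_bad {x y : K} (hx : x ≠ 0) (hy : y ≠ 0) (hc : Gen x y) (B : Finset ℕ)
    (hB : ∀ p ∈ B, p.Prime) (hbad : ∀ p ∈ B, ¬ Gen (x ^ p) (y ^ p)) :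
    2 ^ B.card * finrank ℚ (adjoin ℚ ({x ^ (∏ p ∈ B, p), y ^ (∏ p ∈ B, p)} : Set K)) ≤
      finrank ℚ K := by
  classical
  induction B using Finset.induction_on with
  | empty =>
    simp only [Finset.card_empty, pow_zero, one_mul]
    exact Nat.le_of_dvd finrank_pos ⟨_, (finrank_mul_finrank ℚ
      (adjoin ℚ ({x ^ (∏ p ∈ (∅ : Finset ℕ), p), y ^ (∏ p ∈ (∅ : Finset ℕ), p)} : Set K)) K).symm⟩
  | insert p B hp ih =>
    have ih' := ih (fun q hq => hB q (Finset.mem_insert_of_mem hq))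
      (fun q hq => hbad q (Finset.mem_insert_of_mem hq))
    set P := ∏ q ∈ B, q with hP
    have hcop : Nat.Coprime P p := by
      rw [hP]
      apply Nat.Coprime.prod_left
      intro q hq
      rw [Nat.coprime_primes (hB q (Finset.mem_insert_of_mem hq)) (hB p (Finset.mem_insert_self _ _))]
      rintro rfl
      exact hp hq
    have hlt : adjoin ℚ ({x ^ (p * P), y ^ (p * P)} : Set K) < adjoin ℚ ({x ^ P, y ^ P} : Set K) := by
      rw [lt_iff_le_not_ge]
      constructor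
      · apply adj_le
        · rw [mul_comm, pow_mul]; exact pow_mem (mem1 _ _) p
        · rw [mul_comm, pow_mul]; exact pow_mem (mem2 _ _) p
      · intro hle
        have h1 : adjoin ℚ ({x ^ (p * P), y ^ (p * P)} : Set K) ≤
            adjoin ℚ ({x ^ p, y ^ p} : Set K) := by
          apply adj_le
          · rw [pow_mul]; exact pow_mem (mem1 _ _) P
          · rw [pow_mul]; exact pow_mem (mem2 _ _) P
        have h2 : x ∈ adjoin ℚ ({x ^ p, y ^ p} : Set K) :=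
          mem_of_coprime hx _ hcop (h1 (hle (mem1 _ _))) (mem1 _ _)
        have h3 : y ∈ adjoin ℚ ({x ^ p, y ^ p} : Set K) :=
          mem_of_coprime hy _ hcop (h1 (hle (mem2 _ _))) (mem2 _ _)
        exact hbad p (Finset.mem_insert_self _ _) (gen_of_mem hc h2 h3)
    have h3 := two_mul_finrank_le hlt
    rw [Finset.card_insert_of_notMem hp, Finset.prod_insert hp, ← hP, pow_succ]
    calc 2 ^ B.card * 2 * finrank ℚ (adjoin ℚ ({x ^ (p * P), y ^ (p * P)} : Set K))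
        = 2 ^ B.card * (2 * finrank ℚ (adjoin ℚ ({x ^ (p * P), y ^ (p * P)} : Set K))) := by ring
      _ ≤ 2 ^ B.card * finrank ℚ (adjoin ℚ ({x ^ P, y ^ P} : Set K)) := Nat.mul_le_mul_left _ h3
      _ ≤ _ := ih'

end

theorem t_bad : S_BAD := by
  intro K _ _ x y hx hy hc S hS
  have h := two_pow_bad hx hy hc S (fun p hp => (hS p hp).1) (fun p hp => (hS p hp).2)
  have h1 : 0 < finrank ℚ (adjoin ℚ ({x ^ (∏ p ∈ S, p), y ^ (∏ p ∈ S, p)} : Set K)) := finrank_pos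
  calc 2 ^ S.card = 2 ^ S.card * 1 := by ring
    _ ≤ _ := Nat.mul_le_mul_left _ h1
    _ ≤ _ := h

/-- an element of `Qb` with `u ^ m = (ρ u) ^ n` -/
theorem orbit_pow (ρ : Qb ≃ₐ[ℚ] Qb) (u : Qb) (m n : ℕ) (h : u ^ m = (ρ u) ^ n) (k : ℕ) :
    u ^ (m ^ k) = ((ρ ^ k) u) ^ (n ^ k) := by
  induction k with
  | zero => simp
  | succ k ih =>
    have h1 : ((ρ ^ k) u) ^ m = ((ρ ^ (k + 1)) u) ^ n := by
      rw [← map_pow, h, map_pow]
      congr 1
    calc u ^ (m ^ (k + 1)) = (u ^ (m ^ k)) ^ m := by rw [← pow_mul, ← pow_succ]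
      _ = (((ρ ^ k) u) ^ (n ^ k)) ^ m := by rw [ih]
      _ = (((ρ ^ k) u) ^ m) ^ (n ^ k) := by rw [← pow_mul, ← pow_mul, mul_comm]
      _ = (((ρ ^ (k + 1)) u) ^ n) ^ (n ^ k) := by rw [h1]
      _ = ((ρ ^ (k + 1)) u) ^ (n ^ (k + 1)) := by rw [← pow_mul, ← pow_succ']

theorem qb_alg : Algebra.IsAlgebraic ℚ Qb := AlgebraicClosure.isAlgebraic ℚ

theorem qb_int : Algebra.IsIntegral ℚ Qb := by
  have := qb_alg
  infer_instance

theorem qb_normal : Normal ℚ Qb := by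
  have := qb_alg
  have : IsAlgClosure ℚ Qb := ⟨inferInstance, inferInstance⟩
  exact IsAlgClosure.normal ℚ Qb

theorem orbit_fin (ρ : Qb ≃ₐ[ℚ] Qb) (u : Qb) : ∃ k : ℕ, 0 < k ∧ (ρ ^ k) u = u := by
  have := qb_int
  have hu : IsIntegral ℚ u := Algebra.IsIntegral.isIntegral u
  have hroot : ∀ k : ℕ, (ρ ^ k) u ∈ (minpoly ℚ u).rootSet Qb := by
    intro k
    rw [Polynomial.mem_rootSet]
    refine ⟨minpoly.ne_zero hu, ?_⟩
    have h := Polynomial.aeval_algHom_apply ((ρ ^ k : Qb ≃ₐ[ℚ] Qb) : Qb →ₐ[ℚ] Qb) u (minpoly ℚ u)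
    rw [minpoly.aeval, map_zero] at h
    exact h
  have hfin : Finite ((minpoly ℚ u).rootSet Qb) := (Polynomial.rootSet_finite _ _).to_subtype
  obtain ⟨i, j, hij, he⟩ := Finite.exists_ne_map_eq_of_infinite
    (fun k : ℕ => (⟨(ρ ^ k) u, hroot k⟩ : (minpoly ℚ u).rootSet Qb))
  have he' : (ρ ^ i) u = (ρ ^ j) u := congrArg Subtype.val he
  have key : ∀ a b : ℕ, a < b → (ρ ^ a) u = (ρ ^ b) u → ∃ k : ℕ, 0 < k ∧ (ρ ^ k) u = u := by
    intro a b hab h
    refine ⟨b - a, by omega, ?_⟩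
    have h1 : ρ ^ b = ρ ^ a * ρ ^ (b - a) := by
      rw [← pow_add]; congr 1; omega
    rw [h1] at h
    exact ((ρ ^ a).injective h).symm
  rcases lt_or_gt_of_ne hij with h | h
  · exact key i j h he'
  · exact key j i h he'.symm

theorem t_dis : S_DIS := by
  intro K _ _ x hx hroot σ τ m n hm hn h
  by_contra hmn
  have hu0 : σ x ≠ 0 := (map_ne_zero_iff σ σ.injective).mpr hx.1
  have hconj : IsConjRoot ℚ (σ x) (τ x) := by
    rw [isConjRoot_def, minpoly.algHom_eq σ σ.injective, minpoly.algHom_eq τ τ.injective]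
  have := qb_normal
  obtain ⟨ρ, hρ⟩ := (isConjRoot_iff_exists_algEquiv).mp hconj
  obtain ⟨ρ', hρ'⟩ : ∃ ρ' : Qb ≃ₐ[ℚ] Qb, τ x = ρ' (σ x) := by
    refine ⟨ρ.symm, ?_⟩
    rw [← hρ, AlgEquiv.symm_apply_apply]
  rw [map_pow, map_pow, hρ'] at h
  obtain ⟨k, hk, hku⟩ := orbit_fin ρ' (σ x)
  have h2 := orbit_pow ρ' (σ x) m n h k
  rw [hku] at h2
  have key : ∀ a b : ℕ, a < b → (σ x) ^ (a ^ k) = (σ x) ^ (b ^ k) → False := by
    intro a b hab h3
    have hlt : a ^ k < b ^ k := Nat.pow_lt_pow_left hab hk.ne'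
    have h4 : (σ x) ^ (a ^ k) * (σ x) ^ (b ^ k - a ^ k) = (σ x) ^ (a ^ k) * 1 := by
      rw [← pow_add, mul_one, h3]
      congr 1
      omega
    have h5 := mul_left_cancel₀ (pow_ne_zero _ hu0) h4
    have h6 : σ (x ^ (b ^ k - a ^ k)) = σ 1 := by rw [map_pow, h5, map_one]
    exact hroot (b ^ k - a ^ k) (by omega) (σ.injective h6)
  rcases lt_or_gt_of_ne hmn with h3 | h3
  · exact key m n h3 h2
  · exact key n m h3 h2.symm

end Pool.Agent.N92.RT
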